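import Pool.Agent.T2h61.PN.Stm

/-!
# Bounded denominators

Owner helper10 (task PN_DEN of helper61's board).
-/

set_option autoImplicit false

namespace Pool.Agent.T2h61.PN.DEN

open MvPolynomial
open Pool.Agent.T2h61.PL

variable {R K : Type} [CommRing R] [Field K] [Algebra R K]

/-- denominators of polynomials -/
theorem clear [IsDomain R] [IsFractionRing R K] (p : MvPolynomial (Fin 2) K) :
    ∃ s : R, s ≠ 0 ∧ ∃ q : MvPolynomial (Fin 2) R,
      C (algebraMap R K s) * p = map (algebraMap R K) q := by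
  induction p using MvPolynomial.induction_on with
  | C a =>
    obtain ⟨r, s, hs, h⟩ := IsFractionRing.div_surjective (A := R) a
    have hs0 : s ≠ 0 := nonZeroDivisors.ne_zero hs
    have hs1 : algebraMap R K s ≠ 0 := by
      rw [Ne, IsFractionRing.to_map_eq_zero_iff]
      exact hs0
    refine ⟨s, hs0, C r, ?_⟩
    rw [map_C, ← C_mul, ← h, mul_div_cancel₀ _ hs1]
  | add p q hp hq =>
    obtain ⟨s, hs, p', hp'⟩ := hp
    obtain ⟨t, ht, q', hq'⟩ := hq
    refine ⟨s * t, mul_ne_zero hs ht, C t * p' + C s * q', ?_⟩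
    have e1 : algebraMap R K (s * t) = algebraMap R K s * algebraMap R K t := map_mul _ _ _
    rw [e1, C_mul, map_add, map_mul, map_mul, map_C, map_C, ← hp', ← hq']
    ring
  | mul_X p i hp =>
    obtain ⟨s, hs, p', hp'⟩ := hp
    refine ⟨s, hs, p' * X i, ?_⟩
    rw [map_mul, map_X, ← hp', mul_assoc]

/-- an automorphism over `R` preserves the polynomials over `R` -/
theorem pres {h : Au K} (hh : IntA R h) (q : MvPolynomial (Fin 2) R) :
    ∃ q' : MvPolynomial (Fin 2) R, h (map (algebraMap R K) q) = map (algebraMap R K) q' := by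
  induction q using MvPolynomial.induction_on with
  | C a =>
    refine ⟨C a, ?_⟩
    rw [map_C, ← MvPolynomial.algebraMap_eq, AlgEquiv.commutes]
  | add p q hp hq =>
    obtain ⟨p', hp'⟩ := hp
    obtain ⟨q', hq'⟩ := hq
    exact ⟨p' + q', by rw [map_add, map_add, hp', hq', map_add]⟩
  | mul_X p i hp =>
    obtain ⟨p', hp'⟩ := hp
    obtain ⟨x', hx'⟩ := hh i
    exact ⟨p' * x', by rw [map_mul, map_mul, hp', map_X, hx', map_mul]⟩

theorem const_of {F : MvPolynomial (Fin 2) K} (h : ∀ m, m ≠ 0 → coeff m F = 0) :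
    F = C (coeff 0 F) := by
  classical
  ext m
  rw [coeff_C]
  split_ifs with hm
  · rw [← hm]
  · exact h m (Ne.symm hm)

theorem co {a b c : K} (i : Fin 2) :
    coeff (Finsupp.single i 1) (C a * X 0 + C b * X 1 + C c : MvPolynomial (Fin 2) K) =
      if i = 0 then a else b := by
  classical
  rw [coeff_add, coeff_add, coeff_C_mul, coeff_C_mul, coeff_X, coeff_X, coeff_C]
  have h0 : (0 : Fin 2 →₀ ℕ) ≠ Finsupp.single i 1 := by
    intro h
    have := DFunLike.congr_fun h i
    simp at this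
  rw [if_neg h0]
  fin_cases i
  · have h1 : Finsupp.single (1 : Fin 2) 1 ≠ Finsupp.single (0 : Fin 2) 1 := by
      intro h
      have := DFunLike.congr_fun h 0
      simp at this
    simp [h1]
  · have h1 : Finsupp.single (0 : Fin 2) 1 ≠ Finsupp.single (1 : Fin 2) 1 := by
      intro h
      have := DFunLike.congr_fun h 0
      simp at this
    simp [h1]

/-- two coefficients which are independent -/
theorem indep (g : Au K) : ∃ m₁ m₂ : Fin 2 →₀ ℕ, m₁ ≠ 0 ∧ m₂ ≠ 0 ∧
    coeff m₁ (g (X 0)) * coeff m₂ (g (X 1)) - coeff m₂ (g (X 0)) * coeff m₁ (g (X 1)) ≠ 0 := by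
  by_contra hcon
  push Not at hcon
  by_cases hF : ∀ m, m ≠ 0 → coeff m (g (X 0)) = 0
  · have h1 := const_of hF
    have h2 : g (X 0) = g (C (coeff 0 (g (X 0)))) := by
      rw [← MvPolynomial.algebraMap_eq, AlgEquiv.commutes, MvPolynomial.algebraMap_eq]
      exact h1
    have h3 := g.injective h2
    have h4 := co (K := K) (a := 1) (b := 0) (c := 0) 0
    have h5 := co (K := K) (a := 0) (b := 0) (c := coeff 0 (g (X 0))) 0
    rw [if_pos rfl] at h4 h5
    rw [C_1, C_0, one_mul, zero_mul, add_zero, add_zero, h3] at h4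
    rw [C_0, zero_mul, zero_mul, add_zero, zero_add, h4] at h5
    exact one_ne_zero h5
  · push Not at hF
    obtain ⟨m₁, hm₁, h1⟩ := hF
    have h2 : ∀ m, m ≠ 0 → coeff m (C (coeff m₁ (g (X 1))) * g (X 0) +
        C (-coeff m₁ (g (X 0))) * g (X 1)) = 0 := by
      intro m hm
      rw [coeff_add, coeff_C_mul, coeff_C_mul]
      have := hcon m₁ m hm₁ hm
      linear_combination -this
    have h3 := const_of h2
    set c := coeff 0 (C (coeff m₁ (g (X 1))) * g (X 0) + C (-coeff m₁ (g (X 0))) * g (X 1)) with hc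
    have hg : ∀ r : K, g (C r) = C r := fun r => by
      rw [← MvPolynomial.algebraMap_eq, AlgEquiv.commutes]
    have h4 : g (C (coeff m₁ (g (X 1))) * X 0 + C (-coeff m₁ (g (X 0))) * X 1 + C 0) =
        g (C 0 * X 0 + C 0 * X 1 + C c) := by
      rw [map_add, map_add, map_mul, map_mul, map_add, map_add, map_mul, map_mul, hg, hg, hg, hg, h3,
        C_0, zero_mul, zero_mul, add_zero, add_zero, zero_add]
    have h5 := g.injective h4
    have h6 := co (K := K) (a := coeff m₁ (g (X 1))) (b := -coeff m₁ (g (X 0))) (c := 0) 1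
    have h7 := co (K := K) (a := 0) (b := 0) (c := c) 1
    rw [h5, h7] at h6
    rw [if_neg (by decide), if_neg (by decide)] at h6
    exact h1 (neg_eq_zero.1 h6.symm)

/-- one column -/
theorem col {g a : Au K} (hI : IntA R (g * a * g⁻¹)) {m₁ m₂ : Fin 2 →₀ ℕ} (hm₁ : m₁ ≠ 0)
    (hm₂ : m₂ ≠ 0) {s : R} {F G : MvPolynomial (Fin 2) R}
    (hF : C (algebraMap R K s) * g (X 0) = map (algebraMap R K) F)
    (hG : C (algebraMap R K s) * g (X 1) = map (algebraMap R K) G)
    {j : Fin 2} {al be ga : K} (ha : a (X j) = C al * X 0 + C be * X 1 + C ga) :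
    (∃ r : R, algebraMap R K (coeff m₁ F * coeff m₂ G - coeff m₂ F * coeff m₁ G) * al =
      algebraMap R K r) ∧
    (∃ r : R, algebraMap R K (coeff m₁ F * coeff m₂ G - coeff m₂ F * coeff m₁ G) * be =
      algebraMap R K r) := by
  have hg : ∀ r : K, g (C r) = C r := fun r => by
    rw [← MvPolynomial.algebraMap_eq, AlgEquiv.commutes]
  have hX : ∃ P : MvPolynomial (Fin 2) R, C (algebraMap R K s) * g (X j) = map (algebraMap R K) P := by
    fin_cases j
    · exact ⟨F, hF⟩
    · exact ⟨G, hG⟩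
  obtain ⟨P, hP⟩ := hX
  obtain ⟨Q, hQ⟩ := pres hI P
  rw [← hP, map_mul] at hQ
  have h1 : (g * a * g⁻¹) (g (X j)) = g (a (X j)) := by
    show g (a (g.symm (g (X j)))) = _
    rw [AlgEquiv.symm_apply_apply]
  have h2 : (g * a * g⁻¹) (C (algebraMap R K s)) = C (algebraMap R K s) := by
    rw [← MvPolynomial.algebraMap_eq, AlgEquiv.commutes]
  rw [h1, h2, ha, map_add, map_add, map_mul, map_mul, hg, hg, hg] at hQ
  have h3 : ∀ m : Fin 2 →₀ ℕ, m ≠ 0 →
      al * algebraMap R K (coeff m F) + be * algebraMap R K (coeff m G) =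
        algebraMap R K (coeff m Q) := by
    intro m hm
    classical
    have h4 := congrArg (coeff m) hQ
    rw [coeff_map, coeff_C_mul, coeff_add, coeff_add, coeff_C_mul, coeff_C_mul, coeff_C,
      if_neg (Ne.symm hm), add_zero] at h4
    have h5 := congrArg (coeff m) hF
    have h6 := congrArg (coeff m) hG
    rw [coeff_map, coeff_C_mul] at h5 h6
    rw [← h4, ← h5, ← h6]
    ring
  have h4 := h3 m₁ hm₁
  have h5 := h3 m₂ hm₂
  refine ⟨⟨coeff m₁ Q * coeff m₂ G - coeff m₂ Q * coeff m₁ G, ?_⟩,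
    ⟨coeff m₁ F * coeff m₂ Q - coeff m₂ F * coeff m₁ Q, ?_⟩⟩
  · rw [map_sub, map_sub, map_mul, map_mul, map_mul, map_mul, ← h4, ← h5]
    ring
  · rw [map_sub, map_sub, map_mul, map_mul, map_mul, map_mul, ← h4, ← h5]
    ring

theorem t_DEN : S_DEN := by
  intro R K _ _ _ _ _ g
  obtain ⟨m₁, m₂, hm₁, hm₂, hD⟩ := indep g
  obtain ⟨s, hs, F, hF⟩ := clear (R := R) (g (X 0))
  obtain ⟨t, ht, G, hG⟩ := clear (R := R) (g (X 1))
  have e1 : algebraMap R K (s * t) = algebraMap R K s * algebraMap R K t := map_mul _ _ _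
  have hF' : C (algebraMap R K (s * t)) * g (X 0) = map (algebraMap R K) (C t * F) := by
    rw [e1, C_mul, map_mul, map_C, ← hF]
    ring
  have hG' : C (algebraMap R K (s * t)) * g (X 1) = map (algebraMap R K) (C s * G) := by
    rw [e1, C_mul, map_mul, map_C, ← hG]
    ring
  refine ⟨coeff m₁ (C t * F) * coeff m₂ (C s * G) - coeff m₂ (C t * F) * coeff m₁ (C s * G), ?_, ?_⟩
  · intro h0
    have h1 := congrArg (algebraMap R K) h0
    rw [map_sub, map_mul, map_mul, ← coeff_map, ← coeff_map, ← coeff_map, ← coeff_map, ← hF', ← hG',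
      coeff_C_mul, coeff_C_mul, coeff_C_mul, coeff_C_mul, map_zero] at h1
    have h2 : algebraMap R K (s * t) ≠ 0 := by
      rw [Ne, IsFractionRing.to_map_eq_zero_iff]
      exact mul_ne_zero hs ht
    have h3 : algebraMap R K (s * t) ^ 2 *
        (coeff m₁ (g (X 0)) * coeff m₂ (g (X 1)) - coeff m₂ (g (X 0)) * coeff m₁ (g (X 1))) = 0 := by
      rw [← h1]
      ring
    exact hD ((mul_eq_zero.1 h3).resolve_left (pow_ne_zero 2 h2))
  · intro a ha hI i j
    obtain ⟨a₁, b₁, c₁, a₂, b₂, c₂, -, -, -, -, -, -, h0, h1⟩ := ha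
    have key : ∀ {j : Fin 2} {al be ga : K}, a (X j) = C al * X 0 + C be * X 1 + C ga →
        ∀ i, ∃ r : R, algebraMap R K
          (coeff m₁ (C t * F) * coeff m₂ (C s * G) - coeff m₂ (C t * F) * coeff m₁ (C s * G)) *
            coeff (Finsupp.single i 1) (a (X j)) = algebraMap R K r := by
      intro j al be ga hj i
      have hc := col hI hm₁ hm₂ hF' hG' hj
      rw [hj, co]
      split_ifs
      · exact hc.1
      · exact hc.2
    fin_cases j
    · exact key h0 i
    · exact key h1 i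

end Pool.Agent.T2h61.PN.DEN
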