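import Pool.Agent.T2h61.PN.Stm

/-!
# Extension of scalars for automorphisms of `R[x, y]`

Owner helper10 (task PN_EMB of helper61's board).
-/

set_option autoImplicit false

namespace Pool.Agent.T2h61.PN.EMB

open MvPolynomial
open Pool.Agent.T2h61.PL

section

variable {R : Type} [CommRing R] [IsDomain R]

/-- extension of scalars of one endomorphism -/
noncomputable def ex (φ : MvPolynomial (Fin 2) R ≃ₐ[R] MvPolynomial (Fin 2) R) :
    MvPolynomial (Fin 2) (FractionRing R) →ₐ[FractionRing R] MvPolynomial (Fin 2) (FractionRing R) :=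
  aeval fun i => map (algebraMap R (FractionRing R)) (φ (X i))

theorem ex_X (φ : MvPolynomial (Fin 2) R ≃ₐ[R] MvPolynomial (Fin 2) R) (i : Fin 2) :
    ex φ (X i) = map (algebraMap R (FractionRing R)) (φ (X i)) := by
  rw [ex, aeval_X]

theorem ex_map (φ : MvPolynomial (Fin 2) R ≃ₐ[R] MvPolynomial (Fin 2) R)
    (p : MvPolynomial (Fin 2) R) :
    ex φ (map (algebraMap R (FractionRing R)) p) = map (algebraMap R (FractionRing R)) (φ p) := by
  induction p using MvPolynomial.induction_on with
  | C a =>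
    rw [map_C, ← MvPolynomial.algebraMap_eq, AlgHom.commutes, ← MvPolynomial.algebraMap_eq,
      AlgEquiv.commutes, MvPolynomial.algebraMap_eq, MvPolynomial.algebraMap_eq, map_C]
  | add p q hp hq => rw [map_add, map_add, hp, hq, map_add, map_add]
  | mul_X p i hp => rw [map_mul, map_mul, hp, map_X, ex_X, map_mul, map_mul]

theorem ex_comp (φ ψ : MvPolynomial (Fin 2) R ≃ₐ[R] MvPolynomial (Fin 2) R) :
    (ex φ).comp (ex ψ) = ex (φ * ψ) := by
  apply MvPolynomial.algHom_ext
  intro i
  rw [AlgHom.comp_apply, ex_X, ex_map, ex_X]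
  rfl

theorem ex_one : ex (1 : MvPolynomial (Fin 2) R ≃ₐ[R] MvPolynomial (Fin 2) R) = AlgHom.id _ _ := by
  apply MvPolynomial.algHom_ext
  intro i
  rw [ex_X, AlgHom.id_apply]
  exact map_X _ _

/-- extension of scalars of one automorphism -/
noncomputable def exe (φ : MvPolynomial (Fin 2) R ≃ₐ[R] MvPolynomial (Fin 2) R) :
    Au (FractionRing R) :=
  AlgEquiv.ofAlgHom (ex φ) (ex φ⁻¹)
    (by rw [ex_comp, mul_inv_cancel, ex_one]) (by rw [ex_comp, inv_mul_cancel, ex_one])

theorem exe_apply (φ : MvPolynomial (Fin 2) R ≃ₐ[R] MvPolynomial (Fin 2) R)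
    (p : MvPolynomial (Fin 2) (FractionRing R)) : exe φ p = ex φ p := rfl

end

theorem t_EMB : S_EMB := by
  intro R _ _
  refine ⟨{ toFun := exe, map_one' := ?_, map_mul' := ?_ }, ?_, ?_⟩
  · apply AlgEquiv.ext
    intro p
    rw [exe_apply, ex_one]
    rfl
  · intro φ ψ
    apply AlgEquiv.ext
    intro p
    rw [exe_apply, ← ex_comp]
    rfl
  · intro φ ψ h
    have hinj : Function.Injective (map (σ := Fin 2) (algebraMap R (FractionRing R))) :=
      MvPolynomial.map_injective _ (IsFractionRing.injective R (FractionRing R))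
    apply AlgEquiv.ext
    intro p
    apply hinj
    rw [← ex_map, ← ex_map, ← exe_apply, ← exe_apply]
    have h' : exe φ = exe ψ := h
    rw [h']
  · intro φ i
    exact ex_X φ i

end Pool.Agent.T2h61.PN.EMB
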