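import Pool.Agent.T2h61.PN.Stm
import Pool.Agent.T2h61.GT.Crit

/-!
# Groups of matrices with bounded denominators over a polynomial ring

Owner helper10 (task PN_STEP of helper61's board).
-/

set_option autoImplicit false

namespace Pool.Agent.T2h61.PN.STEP

open WithZero Matrix Polynomial
open Pool.Agent.Y110.FJ (ClosedE)

section

variable {R : Type} [CommRing R] {H : Type} [Group H] {P : H → Matrix (Fin 2) (Fin 2) R[X]}
  {s : R[X]} {L : Type} [Field L]

/-- the representation over a field -/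
noncomputable def rm (hmul : ∀ h h', P h * P h' = s • P (h * h'))
    (hone : P 1 = s • (1 : Matrix (Fin 2) (Fin 2) R[X])) (φ : R[X] →+* L) (hs : φ s ≠ 0) :
    H →* Matrix (Fin 2) (Fin 2) L where
  toFun h := (φ s)⁻¹ • (P h).map φ
  map_one' := by
    rw [hone]
    ext i j
    rw [Matrix.smul_apply, Matrix.map_apply, Matrix.smul_apply, smul_eq_mul, smul_eq_mul, map_mul,
      ← mul_assoc, inv_mul_cancel₀ hs, one_mul, Matrix.one_apply, Matrix.one_apply]
    split_ifs
    · exact map_one φ
    · exact map_zero φ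
  map_mul' h h' := by
    have h1 : (P h).map φ * (P h').map φ = φ s • (P (h * h')).map φ := by
      rw [← Matrix.map_mul, hmul]
      ext i j
      rw [Matrix.smul_apply, Matrix.map_apply, Matrix.smul_apply, smul_eq_mul, smul_eq_mul, map_mul,
        Matrix.map_apply]
    rw [Matrix.smul_mul, Matrix.mul_smul, h1, smul_smul (φ s)⁻¹ (φ s), inv_mul_cancel₀ hs, one_smul]

/-- the representation over a field -/
noncomputable def rep (hmul : ∀ h h', P h * P h' = s • P (h * h'))
    (hone : P 1 = s • (1 : Matrix (Fin 2) (Fin 2) R[X])) (φ : R[X] →+* L) (hs : φ s ≠ 0) :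
    H →* GL (Fin 2) L := (rm hmul hone φ hs).toHomUnits

theorem rep_apply (hmul : ∀ h h', P h * P h' = s • P (h * h'))
    (hone : P 1 = s • (1 : Matrix (Fin 2) (Fin 2) R[X])) (φ : R[X] →+* L) (hs : φ s ≠ 0) (h : H)
    (i j : Fin 2) : (rep hmul hone φ hs h : Matrix (Fin 2) (Fin 2) L) i j =
      (φ s)⁻¹ * φ (P h i j) := rfl

theorem rep_eq_one (hmul : ∀ h h', P h * P h' = s • P (h * h'))
    (hone : P 1 = s • (1 : Matrix (Fin 2) (Fin 2) R[X])) (φ : R[X] →+* L) (hs : φ s ≠ 0) (h : H) :
    rep hmul hone φ hs h = 1 ↔ ∀ i j, φ (P h i j) = φ ((s • (1 : Matrix (Fin 2) (Fin 2) R[X])) i j) := by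
  have key : ∀ i j, φ ((s • (1 : Matrix (Fin 2) (Fin 2) R[X])) i j) =
      φ s * (1 : Matrix (Fin 2) (Fin 2) L) i j := by
    intro i j
    rw [Matrix.smul_apply, smul_eq_mul, map_mul, Matrix.one_apply, Matrix.one_apply]
    split_ifs
    · rw [map_one]
    · rw [map_zero]
  constructor
  · intro h1 i j
    have h2 := rep_apply hmul hone φ hs h i j
    rw [h1, Units.val_one] at h2
    rw [key, h2, ← mul_assoc, mul_inv_cancel₀ hs, one_mul]
  · intro h1
    apply Units.ext
    ext i j
    rw [rep_apply, h1, key, ← mul_assoc, inv_mul_cancel₀ hs, one_mul, Units.val_one]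

end

theorem t_STEP : S_STEP := by
  intro C hC R _ _ H _ P s hs hmul hone hdet hinj Ω hΩ hQ
  classical
  let F := FractionRing R
  let ι : R[X] →+* RatFunc F := (algebraMap F[X] (RatFunc F)).comp (mapRingHom (algebraMap R F))
  have hι : ∀ p : R[X], p ≠ 0 → RatFunc.inftyValuation F (ι p) = exp (p.natDegree : ℤ) := by
    intro p hp
    have h1 : p.map (algebraMap R F) ≠ 0 :=
      (Polynomial.map_ne_zero_iff (IsFractionRing.injective R F)).2 hp
    show RatFunc.inftyValuation F (algebraMap F[X] (RatFunc F) (p.map (algebraMap R F))) = _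
    rw [RatFunc.inftyValuation_apply, RatFunc.inftyValuation.polynomial F h1,
      natDegree_map_eq_of_injective (IsFractionRing.injective R F)]
  have hιs : ι s ≠ 0 := by
    intro h0
    have h1 := hι s hs
    rw [h0, map_zero] at h1
    exact exp_ne_zero h1.symm
  -- the quotients at one point
  have hone' : ∀ c ∈ Ω, s.eval c ≠ 0 → ∃ (Q : Type) (_ : Group Q) (f : H →* Q), C Q ∧
      ∀ h, f h = 1 → ∀ i j, (P h i j).eval c = ((s • (1 : Matrix (Fin 2) (Fin 2) R[X])) i j).eval c := by
    intro c hc hsc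
    let φ : R[X] →+* F := (algebraMap R F).comp (evalRingHom c)
    have hφ : ∀ p, φ p = algebraMap R F (p.eval c) := fun _ => rfl
    have hφs : φ s ≠ 0 := by
      rw [hφ, Ne, IsFractionRing.to_map_eq_zero_iff]
      exact hsc
    have hk : ∀ h : H, (QuotientGroup.mk' (rep hmul hone φ hφs).ker) h = 1 ↔
        ∀ i j, (P h i j).eval c = ((s • (1 : Matrix (Fin 2) (Fin 2) R[X])) i j).eval c := by
      intro h
      rw [QuotientGroup.mk'_apply, QuotientGroup.eq_one_iff, MonoidHom.mem_ker, rep_eq_one]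
      exact forall_congr' fun i => forall_congr' fun j =>
        ⟨fun h1 => IsFractionRing.injective R F h1, fun h1 => by rw [hφ, hφ, h1]⟩
    refine ⟨H ⧸ (rep hmul hone φ hφs).ker, inferInstance, QuotientGroup.mk' _, ?_,
      fun h h1 => (hk h).1 h1⟩
    refine hQ c hc hsc _ (QuotientGroup.mk' _) (QuotientGroup.mk'_surjective _) fun h => ?_
    rw [hk h, ← Matrix.ext_iff]
    refine forall_congr' fun i => forall_congr' fun j => ?_
    rw [Matrix.map_apply, Matrix.smul_apply, Matrix.smul_apply, smul_eq_mul, smul_eq_mul, eval_mul,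
      Matrix.one_apply, Matrix.one_apply]
    split_ifs
    · rw [eval_one]
    · rw [eval_zero]
  -- finitely many points
  have hmany : ∀ (n : ℕ) (c : Fin n → R), (∀ i, c i ∈ Ω ∧ s.eval (c i) ≠ 0) →
      ∃ (Q : Type) (_ : Group Q) (f : H →* Q), C Q ∧ ∀ h, f h = 1 → ∀ l, ∀ i j,
        (P h i j).eval (c l) = ((s • (1 : Matrix (Fin 2) (Fin 2) R[X])) i j).eval (c l) := by
    intro n
    induction n with
    | zero =>
      intro c _
      exact ⟨Multiplicative ℤ, inferInstance, 1, hC.base.int, fun _ _ l => l.elim0⟩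
    | succ n ih =>
      intro c hc
      obtain ⟨Q₁, _, f₁, hQ₁, h₁⟩ := ih (fun i => c i.castSucc) (fun i => hc _)
      obtain ⟨Q₂, _, f₂, hQ₂, h₂⟩ := hone' (c (Fin.last n)) (hc _).1 (hc _).2
      refine ⟨Q₁ × Q₂, inferInstance, f₁.prod f₂, hC.base.prod _ _ hQ₁ hQ₂, fun h hh l => ?_⟩
      have h3 : f₁ h = 1 := congrArg Prod.fst hh
      have h4 : f₂ h = 1 := congrArg Prod.snd hh
      refine Fin.lastCases (h₂ h h4) (fun l => ?_) l
      exact h₁ h h3 l
  -- infinitely many points
  have hinf : {c ∈ Ω | s.eval c ≠ 0}.Infinite := by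
    have h1 : {c : R | s.IsRoot c}.Finite := Polynomial.finite_setOfPred_isRoot hs
    refine (hΩ.sdiff h1).mono ?_
    rintro c ⟨hc1, hc2⟩
    exact ⟨hc1, hc2⟩
  refine Pool.Agent.T2h61.GT.crit (v := RatFunc.inftyValuation F) hC
    ⟨1 / RatFunc.X, RatFunc.inftyValuation.X_inv F⟩
    (rep hmul hone ι hιs) (fun h => ?_) (fun n => ?_)
  · obtain ⟨u, hu, hdu⟩ := hdet h
    have h1 : (rep hmul hone ι hιs h : Matrix (Fin 2) (Fin 2) (RatFunc F)).det =
        ι (Polynomial.C u) := by
      have h2 : (rep hmul hone ι hιs h : Matrix (Fin 2) (Fin 2) (RatFunc F)).det =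
          (ι s)⁻¹ ^ 2 * ι (P h).det := by
        rw [Matrix.det_fin_two, Matrix.det_fin_two, rep_apply, rep_apply, rep_apply, rep_apply,
          map_sub, map_mul, map_mul]
        ring
      rw [h2, hdu, map_mul, map_pow, ← mul_assoc, ← mul_pow, inv_mul_cancel₀ hιs, one_pow, one_mul]
    rw [h1, hι _ (by simpa using hu), natDegree_C]
    simp
  · let e := hinf.natEmbedding
    obtain ⟨Q, hQg, f, hCQ, hf⟩ := hmany (s.natDegree + n.toNat + 1)
      (fun i => (e (i : ℕ) : R)) (fun i => (e (i : ℕ)).2)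
    refine ⟨Q, hQg, f, hCQ, fun h hb hfh => hinj h ?_⟩
    ext1 i j
    rw [← sub_eq_zero]
    refine eq_zero_of_natDegree_lt_card_of_eval_eq_zero _
      (f := fun i : Fin (s.natDegree + n.toNat + 1) => (e (i : ℕ) : R)) ?_ (fun l => ?_) ?_
    · intro a b hab
      exact Fin.ext (e.injective (Subtype.ext hab))
    · rw [eval_sub, sub_eq_zero]
      exact hf h hfh l i j
    · rw [Fintype.card_fin]
      refine lt_of_le_of_lt (natDegree_sub_le _ _) (Nat.lt_succ_of_le (max_le ?_ ?_))
      · rcases eq_or_ne (P h i j) 0 with h0 | h0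
        · rw [h0]
          simp
        · have h3 := hb i j
          rw [rep_apply, map_mul, map_inv₀, hι _ h0, hι _ hs, ← WithZero.exp_neg, ← WithZero.exp_add, WithZero.exp_le_exp] at h3
          omega
      · rw [Matrix.smul_apply, smul_eq_mul, Matrix.one_apply]
        split_ifs
        · rw [mul_one]
          omega
        · simp

end Pool.Agent.T2h61.PN.STEP
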