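import Pool.Agent.T2h61.PN.Stm
import Pool.Agent.R941.FJ.Hyper

/-!
# Task BDD: groups of matrices over `k(t_1, …, t_n)` with bounded denominators and constant determinants
-/

set_option autoImplicit false

namespace Pool.Agent.T2h61.PN.BDD

open MvPolynomial
open Pool.Agent.Y110.FJ (ClosedE)
open Pool.Agent.T2h61.PL

theorem map_mul' {A B : Type} [CommRing A] [CommRing B] (f : A →+* B) (M N : Matrix (Fin 2) (Fin 2) A) :
    (M * N).map f = M.map f * N.map f := Matrix.map_mul

theorem map_inj {A B : Type} {f : A → B} (hf : Function.Injective f) {M N : Matrix (Fin 2) (Fin 2) A}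
    (h : M.map f = N.map f) : M = N := by
  ext i j
  exact hf (congrFun (congrFun h i) j)

theorem map_smul' {A B : Type} [CommRing A] [CommRing B] (f : A →+* B) (a : A)
    (M : Matrix (Fin 2) (Fin 2) A) : (a • M).map f = f a • M.map f := by
  ext i j
  simp [Matrix.map_apply, Matrix.smul_apply, smul_eq_mul]

theorem map_one' {A B : Type} [CommRing A] [CommRing B] (f : A →+* B) :
    (1 : Matrix (Fin 2) (Fin 2) A).map f = 1 := Matrix.map_one f (map_zero f) (map_one f)

theorem det_map {A B : Type} [CommRing A] [CommRing B] (f : A →+* B) (M : Matrix (Fin 2) (Fin 2) A) :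
    (M.map f).det = f M.det := (RingHom.map_det f M).symm

theorem det_smul2 {A : Type} [CommRing A] (a : A) (M : Matrix (Fin 2) (Fin 2) A) :
    (a • M).det = a ^ 2 * M.det := by
  rw [Matrix.det_smul, Fintype.card_fin]

theorem t_BDD : S_BDD := by
  classical
  intro hstep C hC k _ _ hk n
  induction n with
  | zero =>
    intro H s _ _ _
    let e0 : MvPolynomial (Fin 0) k →+* k := (MvPolynomial.isEmptyAlgEquiv k (Fin 0)).toAlgHom.toRingHom
    have he0 : Function.Injective e0 := (MvPolynomial.isEmptyAlgEquiv k (Fin 0)).injective
    let f : FractionRing (MvPolynomial (Fin 0) k) →+* k := IsFractionRing.lift he0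
    refine hC.base.of_injective _ _ ((Matrix.GeneralLinearGroup.map f).comp H.subtype) ?_ hk
    intro x y hxy
    apply Subtype.ext
    apply Units.ext
    apply map_inj f.injective
    exact congrArg Units.val hxy
  | succ n ih =>
    intro H s hs hden hdet
    let S := MvPolynomial (Fin (n + 1)) k
    let R := MvPolynomial (Fin n) k
    let K := FractionRing S
    let K' := FractionRing R
    let a : S →+* K := algebraMap S K
    have ha : Function.Injective a := IsFractionRing.injective S K
    let b : R →+* K' := algebraMap R K'
    have hb : Function.Injective b := IsFractionRing.injective R K'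
    let e : S ≃ₐ[k] Polynomial R := MvPolynomial.finSuccEquiv k n
    choose r hr using fun h : H => hden h.1 h.2
    let P' : H → Matrix (Fin 2) (Fin 2) S := fun h => Matrix.of fun i j => r h i j
    have hP' : ∀ h : H, (P' h).map a = a s • ((h.1 : Matrix (Fin 2) (Fin 2) K)) := by
      intro h
      ext i j
      exact (hr h i j).symm
    have hmul' : ∀ h h' : H, P' h * P' h' = s • P' (h * h') := by
      intro h h'
      apply map_inj ha
      rw [map_mul', map_smul', hP', hP', hP']
      show (a s • (h.1 : Matrix (Fin 2) (Fin 2) K)) * (a s • (h'.1 : Matrix (Fin 2) (Fin 2) K)) =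
        a s • (a s • ((h.1 : Matrix (Fin 2) (Fin 2) K) * (h'.1 : Matrix (Fin 2) (Fin 2) K)))
      rw [smul_mul_assoc, mul_smul_comm]
    have hone' : P' 1 = s • (1 : Matrix (Fin 2) (Fin 2) S) := by
      apply map_inj ha
      rw [map_smul', hP', map_one']
      rfl
    have hdet' : ∀ h : H, ∃ u : k, u ≠ 0 ∧ (P' h).det = s ^ 2 * MvPolynomial.C u := by
      intro h
      obtain ⟨u, hu, hu'⟩ := hdet h.1 h.2
      refine ⟨u, hu, ha ?_⟩
      rw [← det_map, hP', det_smul2, hu', map_mul, map_pow]
    have hfaith' : ∀ h : H, P' h = s • (1 : Matrix (Fin 2) (Fin 2) S) → h = 1 := by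
      intro h hh
      apply Subtype.ext
      apply Units.ext
      have h1 : (P' h).map a = a s • (1 : Matrix (Fin 2) (Fin 2) K) := by
        rw [hh, map_smul', map_one']
      rw [hP'] at h1
      have hs' : a s ≠ 0 := fun h0 => hs (ha (by rw [h0, map_zero]))
      exact smul_right_injective _ hs' h1
    -- over the polynomial ring
    let eR : S →+* Polynomial R := e.toAlgHom.toRingHom
    have heR : Function.Injective eR := e.injective
    let P : H → Matrix (Fin 2) (Fin 2) (Polynomial R) := fun h => (P' h).map eR
    have heC : ∀ u : k, eR (MvPolynomial.C u) = Polynomial.C (MvPolynomial.C u) := by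
      intro u
      have := e.commutes u
      exact this
    have hs1 : eR s ≠ 0 := fun h0 => hs (heR (by rw [h0, map_zero]))
    have hmul : ∀ h h' : H, P h * P h' = eR s • P (h * h') := by
      intro h h'
      show (P' h).map eR * (P' h').map eR = eR s • (P' (h * h')).map eR
      rw [← map_mul', hmul', map_smul']
    have hone : P 1 = eR s • (1 : Matrix (Fin 2) (Fin 2) (Polynomial R)) := by
      show (P' 1).map eR = _
      rw [hone', map_smul', map_one']
    have hdetP : ∀ h : H, ∃ u : k, u ≠ 0 ∧ (P h).det = eR s ^ 2 * Polynomial.C (MvPolynomial.C u) := by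
      intro h
      obtain ⟨u, hu, hu'⟩ := hdet' h
      refine ⟨u, hu, ?_⟩
      show ((P' h).map eR).det = _
      rw [det_map, hu', map_mul, map_pow, heC]
    refine hstep C hC R H P (eR s) hs1 hmul hone ?_ ?_ (Set.range (MvPolynomial.C : k → R)) ?_ ?_
    · intro h
      obtain ⟨u, hu, hu'⟩ := hdetP h
      refine ⟨MvPolynomial.C u, ?_, hu'⟩
      rw [Ne, MvPolynomial.C_eq_zero]
      exact hu
    · intro h hh
      refine hfaith' h (map_inj heR ?_)
      rw [map_smul', map_one']
      exact hh
    · exact Set.infinite_range_of_injective (MvPolynomial.C_injective (Fin n) k)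
    · intro c _ hsc Q _ π hπ hker
      set sc : R := (eR s).eval c with hscd
      have hbsc : b sc ≠ 0 := fun h0 => hsc (hb (by rw [h0, map_zero]))
      let ev : Polynomial R →+* R := Polynomial.evalRingHom c
      have hev : ∀ h : H, (P h).map (Polynomial.eval c) = (P h).map ev := fun h => rfl
      let M : H →* Matrix (Fin 2) (Fin 2) K' :=
        { toFun := fun h => (b sc)⁻¹ • ((P h).map ev).map b
          map_one' := by
            rw [hone, map_smul' ev, map_one' ev, map_smul' b, map_one' b, smul_smul]
            show ((b sc)⁻¹ * b sc) • (1 : Matrix (Fin 2) (Fin 2) K') = 1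
            rw [inv_mul_cancel₀ hbsc, one_smul]
          map_mul' := by
            intro h h'
            have h1 := congrArg (fun N => (N.map ev).map b) (hmul h h')
            simp only [map_mul' ev, map_smul' ev, map_mul' b, map_smul' b] at h1
            rw [smul_mul_assoc, mul_smul_comm, h1, smul_smul, smul_smul]
            show (b sc)⁻¹ • ((P (h * h')).map ev).map b =
              ((b sc)⁻¹ * (b sc)⁻¹ * b sc) • ((P (h * h')).map ev).map b
            rw [mul_assoc, inv_mul_cancel₀ hbsc, mul_one] }
      have hM : ∀ h, M h = (b sc)⁻¹ • ((P h).map ev).map b := fun h => rfl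
      let φ : H →* Matrix.GeneralLinearGroup (Fin 2) K' := M.toHomUnits
      have hφ : ∀ h, ((φ h : Matrix.GeneralLinearGroup (Fin 2) K') : Matrix (Fin 2) (Fin 2) K') = M h :=
        fun h => rfl
      have hkk : π.ker = φ.ker := by
        ext h
        rw [MonoidHom.mem_ker, MonoidHom.mem_ker, hker h, hev]
        constructor
        · intro h1
          apply Units.ext
          rw [hφ, hM, h1, map_smul' b, map_one' b, smul_smul]
          show ((b sc)⁻¹ * b sc) • (1 : Matrix (Fin 2) (Fin 2) K') = 1
          rw [inv_mul_cancel₀ hbsc, one_smul]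
        · intro h1
          apply map_inj hb
          have h2 : M h = 1 := by
            rw [← hφ, h1]
            rfl
          rw [hM] at h2
          have h3 : b sc • ((b sc)⁻¹ • ((P h).map ev).map b) = b sc • (1 : Matrix (Fin 2) (Fin 2) K') := by
            rw [h2]
          rw [smul_smul, mul_inv_cancel₀ hbsc, one_smul] at h3
          rw [h3, map_smul' b, map_one' b]
      have hrange : C φ.range := by
        refine ih φ.range sc hsc ?_ ?_
        · rintro _ ⟨h, rfl⟩ i j
          refine ⟨(P h i j).eval c, ?_⟩
          show b sc * (M h i j) = b ((P h i j).eval c)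
          rw [hM]
          show b sc * ((b sc)⁻¹ * b ((P h i j).eval c)) = b ((P h i j).eval c)
          rw [← mul_assoc, mul_inv_cancel₀ hbsc, one_mul]
        · rintro _ ⟨h, rfl⟩
          obtain ⟨u, hu, hu'⟩ := hdetP h
          refine ⟨u, hu, ?_⟩
          show (M h).det = b (MvPolynomial.C u)
          rw [hM, det_smul2, det_map b, det_map ev, hu', map_mul ev, map_pow ev]
          have h1 : ev (Polynomial.C (MvPolynomial.C u)) = (MvPolynomial.C u : R) := Polynomial.eval_C
          rw [h1, map_mul b, map_pow b]
          show (b sc)⁻¹ ^ 2 * (b sc ^ 2 * b (MvPolynomial.C u)) = b (MvPolynomial.C u)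
          rw [← mul_assoc, ← mul_pow, inv_mul_cancel₀ hbsc, one_pow, one_mul]
      exact Pool.Agent.R941.FJ.C_equiv hC.base
        ((QuotientGroup.quotientKerEquivOfSurjective π hπ).symm.trans
          ((QuotientGroup.quotientMulEquivOfEq hkk).trans (QuotientGroup.quotientKerEquivRange φ))) hrange

end Pool.Agent.T2h61.PN.BDD
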