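import Pool.Agent.T2h61.PN.Stm

/-!
# PN-VTA: the vertex groups of affine type (helper58, for project PN of helper61)
-/

set_option autoImplicit false

namespace Pool.Agent.T2h61.PN.VTA

open MvPolynomial
open Pool.Agent.Y110.FJ (ClosedE)
open Pool.Agent.T2h61.PL
open Pool.Agent.T2h61.PN

theorem unit_eq (n : ℕ) (k : Type) [Field k] (u : (MvPolynomial (Fin n) k)ˣ) :
    ∃ c : k, c ≠ 0 ∧ (u : MvPolynomial (Fin n) k) = MvPolynomial.C c := by
  obtain ⟨r, hr, h⟩ := MvPolynomial.isUnit_iff_eq_C_of_isReduced.1 u.isUnit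
  exact ⟨r, hr.ne_zero, h⟩

theorem t_VTA : S_VTA := by
  intro hSTEP hBDD hDEN hDET hLIN hGRP C hC hM k _ _ hGL n g H hH hint
  obtain ⟨L, hL, hker⟩ := hLIN hGRP (FractionRing (MvPolynomial (Fin n) k))
  obtain ⟨s, hs0, hs⟩ := hDEN (MvPolynomial (Fin n) k) (FractionRing (MvPolynomial (Fin n) k)) g
  have haff : ∀ a ∈ H, IsAff (⊤ : Subfield (FractionRing (MvPolynomial (Fin n) k))) a :=
    fun a ha => (((hGRP _ _).1 a).1 (hH ha)).1
  set L' : H →* Matrix.GeneralLinearGroup (Fin 2) (FractionRing (MvPolynomial (Fin n) k)) :=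
    L.comp (Subgroup.inclusion hH) with hL'
  have hent : ∀ (a : H) (i j : Fin 2), (L' a : Matrix (Fin 2) (Fin 2) _) i j =
      coeff (Finsupp.single i 1) ((a : Au (FractionRing (MvPolynomial (Fin n) k))) (X j)) :=
    fun a i j => hL (Subgroup.inclusion hH a) i j
  have hinf : Infinite k := inferInstance
  have hQ : C L'.range := by
    refine hBDD hSTEP C hC k hGL n L'.range s hs0 ?_ ?_
    · rintro _ ⟨a, rfl⟩ i j
      rw [hent]
      exact hs a (haff a a.2) (hint a a.2) i j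
    · rintro _ ⟨a, rfl⟩
      obtain ⟨u, hu⟩ := hDET (MvPolynomial (Fin n) k) (FractionRing (MvPolynomial (Fin n) k))
        g a (haff a a.2) (hint a a.2) (hint _ (inv_mem a.2))
      obtain ⟨c, hc0, hc⟩ := unit_eq n k u
      refine ⟨c, hc0, ?_⟩
      rw [Matrix.det_fin_two, hent, hent, hent, hent, hu, hc]
  refine Pool.Agent.T2h61.GT.C_abext hC hM L'.rangeRestrict hQ ?_
  intro x y hx hy
  have h1 : L (Subgroup.inclusion hH x) = 1 := congrArg Subtype.val hx
  have h2 : L (Subgroup.inclusion hH y) = 1 := congrArg Subtype.val hy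
  have h3 := hker _ _ h1 h2
  rw [← map_mul, ← map_mul] at h3
  exact Subgroup.inclusion_injective hH h3

end Pool.Agent.T2h61.PN.VTA
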