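import Pool.Agent.T2h61.PN.Stm
import Pool.Agent.T2h61.PL.JacA

/-! # DET: the determinants are units -/

set_option autoImplicit false

namespace Pool.Agent.T2h61.PN.DET

open MvPolynomial
open Pool.Agent.T2h61.PL
open Pool.Agent.T2h61.PL.JacA

section

variable {K : Type} [Field K]

/-- the Jacobian determinant -/
noncomputable def J (φ : Au K) : MvPolynomial (Fin 2) K := jc (φ (X 0)) (φ (X 1))

theorem J_mul (φ ψ : Au K) : J (φ * ψ) = J ψ * J φ := by
  have h := jc_comp (fun i => φ (X i)) (ψ (X 0)) (ψ (X 1))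
  rw [aeval_equiv, aeval_equiv, aeval_equiv] at h
  have h1 : J (φ * ψ) = φ (J ψ) * J φ := h
  obtain ⟨c, _, hc⟩ := jc_const ψ
  have h2 : J ψ = C c := hc
  have h3 : φ (C c) = C c := φ.commutes c
  rw [h1, h2, h3]

theorem J_one : J (1 : Au K) = 1 := by
  have h1 : jc (X 0 : MvPolynomial (Fin 2) K) (X 1) = 1 := by
    unfold jc
    rw [pderiv_X_self, pderiv_X_self, pderiv_X_of_ne (by decide), pderiv_X_of_ne (by decide)]
    ring
  exact h1

theorem J_ne (φ : Au K) : J φ ≠ 0 := by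
  obtain ⟨c, hc, e⟩ := jc_const φ
  have h2 : J φ = C c := e
  rw [h2]
  simpa using hc

theorem J_conj (g a : Au K) : J (g * a * g⁻¹) = J a := by
  have h1 : J (g * a * g⁻¹ * g) = J g * J (g * a * g⁻¹) := J_mul _ _
  have h2 : J (g * a) = J a * J g := J_mul _ _
  rw [inv_mul_cancel_right, h2, mul_comm] at h1
  exact (mul_left_cancel₀ (J_ne g) h1).symm

theorem s01 : (Finsupp.single (0 : Fin 2) 1 : Fin 2 →₀ ℕ) ≠ Finsupp.single 1 1 := by
  intro h
  have := DFunLike.congr_fun h 0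
  simp at this

theorem cf0 (a b c : K) : coeff (Finsupp.single (0 : Fin 2) 1)
    (C a * X 0 + C b * X 1 + C c : MvPolynomial (Fin 2) K) = a := by
  have h1 := s01
  have h2 := s01.symm
  have h3 : (Finsupp.single (0 : Fin 2) 1 : Fin 2 →₀ ℕ) ≠ 0 := by simp
  simp [coeff_C_mul, coeff_X, coeff_C, h1, h2, h3, h3.symm]

theorem cf1 (a b c : K) : coeff (Finsupp.single (1 : Fin 2) 1)
    (C a * X 0 + C b * X 1 + C c : MvPolynomial (Fin 2) K) = b := by
  have h1 := s01
  have h2 := s01.symm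
  have h4 : (Finsupp.single (1 : Fin 2) 1 : Fin 2 →₀ ℕ) ≠ 0 := by simp
  simp [coeff_C_mul, coeff_X, coeff_C, h1, h2, h4, h4.symm]

theorem J_aff {g : Au K} (hg : IsAff (⊤ : Subfield K) g) :
    J g = C (coeff (Finsupp.single 0 1) (g (X 0)) * coeff (Finsupp.single 1 1) (g (X 1)) -
        coeff (Finsupp.single 0 1) (g (X 1)) * coeff (Finsupp.single 1 1) (g (X 0))) := by
  obtain ⟨a, b, c, d, e, f, -, -, -, -, -, -, h1, h2⟩ := hg
  unfold J
  rw [h1, h2, cf0, cf1, cf0, cf1]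
  unfold jc
  simp only [map_add, pderiv_mul, pderiv_C, pderiv_X_self, pderiv_X_of_ne (show (0 : Fin 2) ≠ 1 by decide),
    pderiv_X_of_ne (show (1 : Fin 2) ≠ 0 by decide), zero_mul, mul_zero, mul_one, zero_add, add_zero,
    map_sub, map_mul]
  ring

theorem J_int {R : Type} [CommRing R] [Algebra R K] {h : Au K} (hh : IntA R h) :
    ∃ c : R, J h = C (algebraMap R K c) := by
  obtain ⟨p, hp⟩ := hh 0
  obtain ⟨q, hq⟩ := hh 1
  obtain ⟨c, _, e⟩ := jc_const h
  have h2 : J h = C c := e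
  refine ⟨coeff 0 (pderiv 0 p * pderiv 1 q - pderiv 1 p * pderiv 0 q), ?_⟩
  have h3 : J h = map (algebraMap R K) (pderiv 0 p * pderiv 1 q - pderiv 1 p * pderiv 0 q) := by
    unfold J jc
    rw [hp, hq, map_sub, map_mul, map_mul, pderiv_map, pderiv_map, pderiv_map, pderiv_map]
  rw [← coeff_map, ← h3, h2, coeff_zero_C]

end

theorem t_DET : S_DET := by
  intro R K _ _ _ _ _ g a ha h1 h2
  obtain ⟨c, hc⟩ := J_int h1
  obtain ⟨d, hd⟩ := J_int h2
  rw [J_conj] at hc hd
  have h3 : J a⁻¹ * J a = 1 := by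
    rw [← J_mul, mul_inv_cancel, J_one]
  have h4 : d * c = 1 := by
    apply IsFractionRing.injective R K
    rw [hc, hd, ← map_mul, ← map_mul] at h3
    have h5 : (C (algebraMap R K (d * c)) : MvPolynomial (Fin 2) K) = C 1 := by rw [h3, map_one]
    rw [C_injective (Fin 2) K h5, map_one]
  refine ⟨⟨c, d, by rw [mul_comm]; exact h4, h4⟩, ?_⟩
  rw [J_aff ha] at hc
  exact C_injective (Fin 2) K hc

end Pool.Agent.T2h61.PN.DET
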