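import Pool.Agent.T2h61.PN.Stm

/-! # LIN: the linear part of an affine automorphism -/

set_option autoImplicit false

namespace Pool.Agent.T2h61.PN.LIN

open MvPolynomial
open Pool.Agent.T2h61.PL

variable {K : Type} [Field K]

theorem s01 : (Finsupp.single (0 : Fin 2) 1 : Fin 2 →₀ ℕ) ≠ Finsupp.single 1 1 := by
  intro h
  have := DFunLike.congr_fun h 0
  simp at this

theorem cf (a b c : K) (i : Fin 2) : coeff (Finsupp.single i 1)
    (C a * X 0 + C b * X 1 + C c : MvPolynomial (Fin 2) K) = ![a, b] i := by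
  have h1 := s01
  have h2 := s01.symm
  have h3 : (Finsupp.single (0 : Fin 2) 1 : Fin 2 →₀ ℕ) ≠ 0 := by simp
  have h4 : (Finsupp.single (1 : Fin 2) 1 : Fin 2 →₀ ℕ) ≠ 0 := by simp
  fin_cases i <;> simp [coeff_C_mul, coeff_X, coeff_C, h1, h2, h3, h3.symm, h4, h4.symm]

/-- the matrix -/
noncomputable def M (g : Au K) : Matrix (Fin 2) (Fin 2) K := fun i j => coeff (Finsupp.single i 1) (g (X j))

theorem M_aff {g : Au K} {a b c d e f : K} (h1 : g (X 0) = C a * X 0 + C b * X 1 + C c)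
    (h2 : g (X 1) = C d * X 0 + C e * X 1 + C f) : M g = !![a, d; b, e] := by
  ext i j
  unfold M
  fin_cases j
  · change coeff _ (g (X 0)) = _
    rw [h1, cf]
    fin_cases i <;> rfl
  · change coeff _ (g (X 1)) = _
    rw [h2, cf]
    fin_cases i <;> rfl

theorem aut_C (g : Au K) (c : K) : g (C c) = C c := g.commutes c

theorem M_mul {g h : Au K} (hg : IsAff (⊤ : Subfield K) g) (hh : IsAff (⊤ : Subfield K) h) :
    M (g * h) = M g * M h := by
  obtain ⟨a, b, c, d, e, f, -, -, -, -, -, -, h1, h2⟩ := hg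
  obtain ⟨a', b', c', d', e', f', -, -, -, -, -, -, h1', h2'⟩ := hh
  have e1 : (g * h) (X 0) = C (a' * a + b' * d) * X 0 + C (a' * b + b' * e) * X 1 +
      C (a' * c + b' * f + c') := by
    rw [AlgEquiv.mul_apply, h1', map_add, map_add, map_mul, map_mul, aut_C, aut_C,
      aut_C, h1, h2]
    simp only [C_add, C_mul]
    ring
  have e2 : (g * h) (X 1) = C (d' * a + e' * d) * X 0 + C (d' * b + e' * e) * X 1 +
      C (d' * c + e' * f + f') := by
    rw [AlgEquiv.mul_apply, h2', map_add, map_add, map_mul, map_mul, aut_C, aut_C,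
      aut_C, h1, h2]
    simp only [C_add, C_mul]
    ring
  rw [M_aff e1 e2, M_aff h1 h2, M_aff h1' h2']
  ext i j
  fin_cases i <;> fin_cases j <;> simp [Matrix.mul_apply, Fin.sum_univ_two] <;> ring

theorem M_one : M (1 : Au K) = 1 := by
  rw [M_aff (g := (1 : Au K)) (a := 1) (b := 0) (c := 0) (d := 0) (e := 1) (f := 0) (by simp)
    (by simp)]
  ext i j
  fin_cases i <;> fin_cases j <;> simp

theorem transl {g : Au K} (hg : IsAff (⊤ : Subfield K) g) (h : M g = 1) :
    ∃ c f : K, g (X 0) = X 0 + C c ∧ g (X 1) = X 1 + C f := by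
  obtain ⟨a, b, c, d, e, f, -, -, -, -, -, -, h1, h2⟩ := hg
  rw [M_aff h1 h2] at h
  have q1 : a = 1 := by simpa using congrFun (congrFun h 0) 0
  have q2 : d = 0 := by simpa using congrFun (congrFun h 0) 1
  have q3 : b = 0 := by simpa using congrFun (congrFun h 1) 0
  have q4 : e = 1 := by simpa using congrFun (congrFun h 1) 1
  subst q1 q2 q3 q4
  exact ⟨c, f, by rw [h1]; simp, by rw [h2]; simp⟩

theorem comm {g h : Au K} (hg : ∃ c f : K, g (X 0) = X 0 + C c ∧ g (X 1) = X 1 + C f)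
    (hh : ∃ c f : K, h (X 0) = X 0 + C c ∧ h (X 1) = X 1 + C f) : g * h = h * g := by
  obtain ⟨c, f, h1, h2⟩ := hg
  obtain ⟨c', f', h1', h2'⟩ := hh
  have h3 : ((g * h : Au K) : MvPolynomial (Fin 2) K →ₐ[K] MvPolynomial (Fin 2) K) = (h * g : Au K) := by
    apply MvPolynomial.algHom_ext
    intro i
    fin_cases i
    · change g (h (X 0)) = h (g (X 0))
      rw [h1, h1', map_add, map_add, aut_C, aut_C, h1, h1']
      ring
    · change g (h (X 1)) = h (g (X 1))
      rw [h2, h2', map_add, map_add, aut_C, aut_C, h2, h2']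
      ring
  ext1 u
  exact DFunLike.congr_fun h3 u

theorem t_LIN : S_LIN := by
  intro hG K _
  have hA := (hG K ⊤).1
  have hmul : ∀ g h : affS (⊤ : Subfield K), M ((g * h : affS (⊤ : Subfield K)) : Au K) = M (g : Au K) * M (h : Au K) :=
    fun g h => M_mul ((hA g).1 g.2).1 ((hA h).1 h.2).1
  refine ⟨MonoidHom.toHomUnits ⟨⟨fun g => M (g : Au K), M_one⟩, hmul⟩, fun a i j => rfl, ?_⟩
  intro a b ha hb
  have ha' : M (a : Au K) = 1 :=
    congrArg (fun u : Matrix.GeneralLinearGroup (Fin 2) K => (u : Matrix (Fin 2) (Fin 2) K)) ha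
  have hb' : M (b : Au K) = 1 :=
    congrArg (fun u : Matrix.GeneralLinearGroup (Fin 2) K => (u : Matrix (Fin 2) (Fin 2) K)) hb
  apply Subtype.ext
  exact comm (transl ((hA a).1 a.2).1 ha') (transl ((hA b).1 b.2).1 hb')

end Pool.Agent.T2h61.PN.LIN
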