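import Pool.Agent.T2h61.PL.Acg
import Pool.Agent.T2h61.PL.MUF
import Pool.Agent.T2h61.PN.T_BDD
import Pool.Agent.T2h61.PN.T_DET
import Pool.Agent.T2h61.PN.T_LIN
import Pool.Agent.T2h61.PN.T_VTA

/-!
# The groups of automorphisms of `k[x, y]` and of `k[t_1, …, t_n][x, y]`
-/

set_option autoImplicit false

namespace Pool.Agent.T2h61.PN

open MvPolynomial
open Pool.Agent.Y110.FJ (ClosedE)
open Pool.Agent.N509.TX (AcylF)
open Pool.Agent.T2h61.PL

/-- the group of the automorphisms of `R[x, y]` over `R` -/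
abbrev Aut2 (R : Type) [CommRing R] : Type := MvPolynomial (Fin 2) R ≃ₐ[R] MvPolynomial (Fin 2) R

variable {C : ∀ (G : Type) [Group G], Prop}

theorem C_affS (hC : ClosedE C) (hM : ∀ (G : Type) [Group G], derivedSeries G 2 = ⊥ → C G)
    (k : Type) [Field k] (h2 : C (Matrix.GeneralLinearGroup (Fin 2) k)) :
    C (affS (⊤ : Subfield k)) := by
  obtain ⟨L, -, h⟩ := LIN.t_LIN t_GRP k
  exact Pool.Agent.T2h61.GT.C_abext hC hM L h2 h

/-- fields -/
theorem aut_field (hC : ClosedE C) (hM : ∀ (G : Type) [Group G], derivedSeries G 2 = ⊥ → C G)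
    (hA : AcylF C) (k : Type) [Field k] [CharZero k] (h2 : C (Matrix.GeneralLinearGroup (Fin 2) k)) :
    C (Aut2 k) := by
  refine Pool.Agent.R941.FJ.C_equiv hC.base (Subgroup.topEquiv (G := Au k)).symm ?_
  refine acg hC hM hA (fun S hS => t_MUF k S hS) ⊤ fun g H hH _ => ?_
  exact Pool.Agent.R941.FJ.C_le hC.base hH (C_affS hC hM k h2)

/-- linear automorphisms -/
noncomputable def linHom (k : Type) [Field k] :
    Matrix (Fin 2) (Fin 2) k →* (MvPolynomial (Fin 2) k →ₐ[k] MvPolynomial (Fin 2) k) where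
  toFun M := aeval fun j => ∑ i, MvPolynomial.C (M i j) * X i
  map_one' := by
    apply MvPolynomial.algHom_ext
    intro j
    rw [aeval_X, Fin.sum_univ_two, Matrix.one_apply, Matrix.one_apply]
    fin_cases j <;> simp
  map_mul' M N := by
    apply MvPolynomial.algHom_ext
    intro j
    rw [AlgHom.mul_apply, aeval_X, aeval_X, map_sum]
    simp only [map_mul, aeval_X, Fin.sum_univ_two, Matrix.mul_apply, map_add, algHom_C,
      MvPolynomial.algebraMap_eq]
    ring

theorem linHom_inj (k : Type) [Field k] : Function.Injective (linHom k) := by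
  intro M N h
  ext i j
  have h1 : (∑ i, MvPolynomial.C (M i j) * X i : MvPolynomial (Fin 2) k) =
      ∑ i, MvPolynomial.C (N i j) * X i := by
    have h0 := congrArg (fun f : MvPolynomial (Fin 2) k →ₐ[k] MvPolynomial (Fin 2) k => f (X j)) h
    have e : ∀ M : Matrix (Fin 2) (Fin 2) k, linHom k M (X j) =
        ∑ i, MvPolynomial.C (M i j) * X i := fun M => aeval_X _ _
    have h3 : linHom k M (X j) = linHom k N (X j) := h0
    rw [e, e] at h3
    exact h3
  have h2 := congrArg (coeff (Finsupp.single i 1)) h1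
  rw [Fin.sum_univ_two, Fin.sum_univ_two] at h2
  have n1 : ¬ (Finsupp.single (0 : Fin 2) 1 = Finsupp.single (1 : Fin 2) 1) := by
    intro h
    have := DFunLike.congr_fun h 0
    simp at this
  have n2 : ¬ (Finsupp.single (1 : Fin 2) 1 = Finsupp.single (0 : Fin 2) 1) := fun h => n1 h.symm
  fin_cases i
  · simpa [coeff_C_mul, coeff_X, n1, n2] using h2
  · simpa [coeff_C_mul, coeff_X, n1, n2] using h2

theorem gl_of_aut (hC : ClosedE C) (k : Type) [Field k] (h : C (Aut2 k)) :
    C (Matrix.GeneralLinearGroup (Fin 2) k) := by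
  refine hC.base.of_injective _ _ (((AlgEquiv.algHomUnitsEquiv k (MvPolynomial (Fin 2) k)).toMonoidHom).comp
    (Units.map (linHom k))) ?_ h
  exact (AlgEquiv.algHomUnitsEquiv k (MvPolynomial (Fin 2) k)).injective.comp
    (Units.map_injective (linHom_inj k))

/-- extension of scalars -/
theorem aut_ring (hC : ClosedE C) (hM : ∀ (G : Type) [Group G], derivedSeries G 2 = ⊥ → C G)
    (hA : AcylF C) (hEMB : S_EMB) (R : Type) [CommRing R] [IsDomain R] [CharZero R]
    (hV : ∀ (g : Au (FractionRing R)) (H : Subgroup (Au (FractionRing R))),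
      H ≤ affS (⊤ : Subfield (FractionRing R)) → (∀ h ∈ H, IntA R (g * h * g⁻¹)) → C H) :
    C (Aut2 R) := by
  obtain ⟨ι, hι, h1⟩ := hEMB R
  have : CharZero (FractionRing R) :=
    charZero_of_injective_algebraMap (IsFractionRing.injective R (FractionRing R))
  refine Pool.Agent.R941.FJ.C_equiv hC.base (MonoidHom.ofInjective hι) ?_
  refine acg hC hM hA (fun S hS => t_MUF _ S hS) ι.range fun g H hH hG => ?_
  refine hV g H hH fun h hh i => ?_
  obtain ⟨φ, hφ⟩ := hG h hh
  rw [← hφ]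
  exact ⟨_, h1 φ i⟩

/-- polynomial rings -/
theorem aut_poly (hC : ClosedE C) (hM : ∀ (G : Type) [Group G], derivedSeries G 2 = ⊥ → C G)
    (hA : AcylF C) (hEMB : S_EMB) (hSTEP : S_STEP) (hDEN : S_DEN) (k : Type) [Field k] [CharZero k]
    (h2 : C (Matrix.GeneralLinearGroup (Fin 2) k)) (n : ℕ) :
    C (Aut2 (MvPolynomial (Fin n) k)) :=
  aut_ring hC hM hA hEMB _ fun g H hH hI =>
    VTA.t_VTA hSTEP BDD.t_BDD hDEN DET.t_DET LIN.t_LIN t_GRP C hC hM k h2 n g H hH hI

end Pool.Agent.T2h61.PN
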