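import Pool.Agent.T2h61.PL.Stm7
import Pool.Agent.T2h61.GT.Ab

/-!
# Automorphisms of `k[t_1, …, t_n][x, y]` over `k[t_1, …, t_n]`: statements of the tasks

Owner helper61.
-/

set_option autoImplicit false

namespace Pool.Agent.T2h61.PN

open MvPolynomial
open Pool.Agent.Y110.FJ (ClosedE)
open Pool.Agent.N509.TX (AcylF)
open Pool.Agent.T2h61.PL

/-- the components of `g` have coefficients in the ring `R` -/
def IntA (R : Type) {K : Type} [CommRing R] [Field K] [Algebra R K] (g : Au K) : Prop :=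
  ∀ i, ∃ p : MvPolynomial (Fin 2) R, g (X i) = map (algebraMap R K) p

/-- **EMB** (70 lines). Extension of scalars. -/
def S_EMB : Prop := ∀ (R : Type) [CommRing R] [IsDomain R],
  ∃ ι : (MvPolynomial (Fin 2) R ≃ₐ[R] MvPolynomial (Fin 2) R) →* Au (FractionRing R),
    Function.Injective ι ∧ ∀ φ i, ι φ (X i) = map (algebraMap R (FractionRing R)) (φ (X i))

/-- **STEP** (150 lines). Groups of matrices with bounded denominators over a polynomial ring, detected
by the values at infinitely many points. -/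
def S_STEP : Prop := ∀ (C : ∀ (G : Type) [Group G], Prop), ClosedE C →
  ∀ (R : Type) [CommRing R] [IsDomain R] (H : Type) [Group H]
    (P : H → Matrix (Fin 2) (Fin 2) (Polynomial R)) (s : Polynomial R), s ≠ 0 →
  (∀ h h', P h * P h' = s • P (h * h')) → P 1 = s • (1 : Matrix (Fin 2) (Fin 2) (Polynomial R)) →
  (∀ h, ∃ u : R, u ≠ 0 ∧ (P h).det = s ^ 2 * Polynomial.C u) →
  (∀ h, P h = s • (1 : Matrix (Fin 2) (Fin 2) (Polynomial R)) → h = 1) →
  ∀ Ω : Set R, Ω.Infinite →
  (∀ c ∈ Ω, s.eval c ≠ 0 → ∀ (Q : Type) [Group Q] (π : H →* Q), Function.Surjective π →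
    (∀ h, π h = 1 ↔ (P h).map (Polynomial.eval c) = s.eval c • (1 : Matrix (Fin 2) (Fin 2) R)) →
      C Q) → C H

/-- **BDD** (150 lines). Groups of matrices over `k(t_1, …, t_n)` with bounded denominators and constant
determinants. -/
def S_BDD : Prop := S_STEP → ∀ (C : ∀ (G : Type) [Group G], Prop), ClosedE C →
  ∀ (k : Type) [Field k] [Infinite k], C (Matrix.GeneralLinearGroup (Fin 2) k) →
  ∀ (n : ℕ) (H : Subgroup (Matrix.GeneralLinearGroup (Fin 2) (FractionRing (MvPolynomial (Fin n) k))))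
    (s : MvPolynomial (Fin n) k), s ≠ 0 →
  (∀ h ∈ H, ∀ i j, ∃ r : MvPolynomial (Fin n) k,
    algebraMap _ (FractionRing (MvPolynomial (Fin n) k)) s *
      (h : Matrix (Fin 2) (Fin 2) (FractionRing (MvPolynomial (Fin n) k))) i j = algebraMap _ _ r) →
  (∀ h ∈ H, ∃ u : k, u ≠ 0 ∧
    (h : Matrix (Fin 2) (Fin 2) (FractionRing (MvPolynomial (Fin n) k))).det =
      algebraMap (MvPolynomial (Fin n) k) _ (MvPolynomial.C u)) → C H

/-- **DEN** (120 lines). Affine automorphisms which are conjugate to automorphisms over `R` have bounded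
denominators. -/
def S_DEN : Prop := ∀ (R K : Type) [CommRing R] [IsDomain R] [Field K] [Algebra R K]
  [IsFractionRing R K] (g : Au K), ∃ s : R, s ≠ 0 ∧ ∀ a : Au K, IsAff (⊤ : Subfield K) a →
    IntA R (g * a * g⁻¹) → ∀ i j, ∃ r : R,
      algebraMap R K s * coeff (Finsupp.single i 1) (a (X j)) = algebraMap R K r

/-- **DET** (80 lines). Their determinants are units of `R`. -/
def S_DET : Prop := ∀ (R K : Type) [CommRing R] [IsDomain R] [Field K] [Algebra R K]
  [IsFractionRing R K] (g a : Au K), IsAff (⊤ : Subfield K) a → IntA R (g * a * g⁻¹) →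
    IntA R (g * a⁻¹ * g⁻¹) → ∃ u : Rˣ,
      coeff (Finsupp.single 0 1) (a (X 0)) * coeff (Finsupp.single 1 1) (a (X 1)) -
        coeff (Finsupp.single 0 1) (a (X 1)) * coeff (Finsupp.single 1 1) (a (X 0)) =
      algebraMap R K u

/-- **LIN** (80 lines). The linear part of an affine automorphism. -/
def S_LIN : Prop := S_GRP → ∀ (K : Type) [Field K],
  ∃ L : affS (⊤ : Subfield K) →* Matrix.GeneralLinearGroup (Fin 2) K,
    (∀ (a : affS (⊤ : Subfield K)) (i j : Fin 2), (L a : Matrix (Fin 2) (Fin 2) K) i j =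
      coeff (Finsupp.single i 1) ((a : Au K) (X j))) ∧
    ∀ a b, L a = 1 → L b = 1 → a * b = b * a

/-- **VTA** (100 lines). The vertex groups of affine type. -/
def S_VTA : Prop := S_STEP → S_BDD → S_DEN → S_DET → S_LIN → S_GRP →
  ∀ (C : ∀ (G : Type) [Group G], Prop), ClosedE C →
  (∀ (G : Type) [Group G], derivedSeries G 2 = ⊥ → C G) →
  ∀ (k : Type) [Field k] [CharZero k], C (Matrix.GeneralLinearGroup (Fin 2) k) →
  ∀ (n : ℕ) (g : Au (FractionRing (MvPolynomial (Fin n) k)))
    (H : Subgroup (Au (FractionRing (MvPolynomial (Fin n) k)))),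
  H ≤ affS (⊤ : Subfield (FractionRing (MvPolynomial (Fin n) k))) →
  (∀ h ∈ H, IntA (MvPolynomial (Fin n) k) (g * h * g⁻¹)) → C H

end Pool.Agent.T2h61.PN
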